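import Pool.Agent.Lib.MP_7d5718_an.Main

set_option autoImplicit false

open scoped ENNReal

namespace Pool.Agent.Results.MP_7d5718_an.FrequentNotChaotic

/-- The lower density `liminf_N |A ∩ {0, …, N-1}| / N` of a set of natural numbers. -/
noncomputable def lowerDensity (A : Set ℕ) : ℝ :=
  Filter.liminf (fun N : ℕ => (Set.ncard {n : ℕ | n < N ∧ n ∈ A} : ℝ) / (N : ℝ)) Filter.atTop

/-- `T` is hypercyclic: some orbit `{T^n x : n ≥ 0}` is dense. -/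
def Hypercyclic {E : Type*} [TopologicalSpace E] (T : E → E) : Prop :=
  ∃ x : E, Dense (Set.range fun n : ℕ => T^[n] x)

/-- `T` is Devaney chaotic: hypercyclic, with a dense set of periodic points. -/
def DevaneyChaotic {E : Type*} [TopologicalSpace E] (T : E → E) : Prop :=
  Hypercyclic T ∧ Dense {x : E | ∃ k : ℕ, 1 ≤ k ∧ T^[k] x = x}

/-- `T` is frequently hypercyclic: some `x` visits every nonempty open set along a set of times
of positive lower density. -/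
def FrequentlyHypercyclic {E : Type*} [TopologicalSpace E] (T : E → E) : Prop :=
  ∃ x : E, ∀ U : Set E, IsOpen U → U.Nonempty → 0 < lowerDensity {n : ℕ | T^[n] x ∈ U}

/-- `T` is frequently hypercyclic but not Devaney chaotic. -/
def SplitsFrequentChaos {E : Type*} [TopologicalSpace E] (T : E → E) : Prop :=
  FrequentlyHypercyclic T ∧ ¬ DevaneyChaotic T

/-- The sequence of bounded invertible operators `S_n` satisfies
`sup_n max (‖S_n‖, ‖S_n⁻¹‖) < ∞`. -/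
def UniformlyInvertible {𝕜 : Type*} [RCLike 𝕜] {X : Type*} [NormedAddCommGroup X]
    [NormedSpace 𝕜 X] (S : ℤ → (X ≃L[𝕜] X)) : Prop :=
  ∃ C : ℝ, ∀ n, ‖(S n : X →L[𝕜] X)‖ ≤ C ∧ ‖((S n).symm : X →L[𝕜] X)‖ ≤ C

/-- `σ` is the shift operator generated by `S` on `ℓ_p(ℤ; X)`: `(σ x)_n = S_{n+1} (x_{n+1})`. -/
def IsShiftOperator {𝕜 : Type*} [RCLike 𝕜] {X : Type*} [NormedAddCommGroup X]
    [NormedSpace 𝕜 X] (S : ℤ → (X ≃L[𝕜] X)) (p : ℝ≥0∞)
    (σ : lp (fun _ : ℤ => X) p → lp (fun _ : ℤ => X) p) : Prop :=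
  ∀ x n, σ x n = S (n + 1) (x (n + 1))

/-- Some uniformly invertible sequence `S` on `X` generates on `ℓ_p(ℤ; X)` a shift operator that is
frequently hypercyclic and not Devaney chaotic. -/
def HasFrequentNotChaoticShift (𝕜 : Type*) [RCLike 𝕜] (X : Type*) [NormedAddCommGroup X]
    [NormedSpace 𝕜 X] (p : ℝ≥0∞) [Fact (1 ≤ p)] : Prop :=
  ∃ (S : ℤ → (X ≃L[𝕜] X)) (σ : lp (fun _ : ℤ => X) p → lp (fun _ : ℤ => X) p),
    UniformlyInvertible S ∧ IsShiftOperator S p σ ∧ SplitsFrequentChaos σ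

/-- For `𝕜 = ℝ` or `ℂ`, `X = ℓ^1(ℕ)` and every `1 ≤ p < ∞` there are bounded invertible operators
`S_n` (`n ∈ ℤ`) on `X` with `sup_n max (‖S_n‖, ‖S_n⁻¹‖) < ∞` such that the shift operator
`σ (x_n)_n = (S_{n+1} x_{n+1})_n` on `ℓ_p(X)` is frequently hypercyclic but not Devaney
chaotic. -/
theorem result (𝕜 : Type*) [RCLike 𝕜] (p : ℝ≥0∞) [Fact (1 ≤ p)] (hp : p ≠ ∞) :
    HasFrequentNotChaoticShift 𝕜 (lp (fun _ : ℕ => 𝕜) 1) p := by
  refine ⟨Pool.Agent.Lib.MP_7d5718_an.SE 𝕜, Pool.Agent.Lib.MP_7d5718_an.sig (𝕜 := 𝕜) p hp,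
    ⟨8, fun n => ⟨?_, ?_⟩⟩, fun x n => rfl,
    Pool.Agent.Lib.MP_7d5718_an.sig_fhc p hp, Pool.Agent.Lib.MP_7d5718_an.sig_not_chaotic p hp⟩
  · rw [Pool.Agent.Lib.MP_7d5718_an.SE_coe]
    exact Pool.Agent.Lib.MP_7d5718_an.opS_norm 𝕜 n
  · rw [Pool.Agent.Lib.MP_7d5718_an.SE_symm_coe]
    exact Pool.Agent.Lib.MP_7d5718_an.opR_norm 𝕜 n

end Pool.Agent.Results.MP_7d5718_an.FrequentNotChaotic
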